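import Mathlib
import Pool.Agent.Q275.QuadD

/-!
# Polynomials on quadric hypersurfaces via vanishing differences

With `C_s = s + 5` and `P_d = 2 (d + 3)²`, conditions (i) and (ii) are equivalent.
-/

set_option autoImplicit false

open Polynomial Matrix Pool.Agent.Q275.Quad

namespace Pool.Agent.Results.MP_5cbcf2_nt.Equivalence

/-! ## The definitions of the question -/

/-- `Δ_h g(n) = g(n+h) - g(n)`. -/
def delta {p d : ℕ} (h : Fin d → ZMod p) (g : (Fin d → ZMod p) → ZMod p) :
    (Fin d → ZMod p) → ZMod p :=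
  fun n => g (n + h) - g n

/-- `Δ_{h_s} ⋯ Δ_{h_1} g`. -/
def iterDelta {p d : ℕ} : (s : ℕ) → (Fin s → (Fin d → ZMod p)) → ((Fin d → ZMod p) → ZMod p) →
    ((Fin d → ZMod p) → ZMod p)
  | 0, _, g => g
  | (s + 1), h, g => delta (h (Fin.last s)) (iterDelta s (fun i => h i.castSucc) g)

/-- `V(M)`, where `M(n) = n A nᵀ`. -/
def zeroSet {p d : ℕ} (A : Matrix (Fin d) (Fin d) (ZMod p)) : Set (Fin d → ZMod p) :=
  {n | (n ᵥ* A) ⬝ᵥ n = 0}

/-- The Gowers set `□_s(Ω)`. -/
def gowersSet {p d : ℕ} (s : ℕ) (Ω : Set (Fin d → ZMod p)) :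
    Set ((Fin d → ZMod p) × (Fin s → (Fin d → ZMod p))) :=
  {x | ∀ ε : Fin s → Fin 2, x.1 + ∑ i, (ε i : ℕ) • x.2 i ∈ Ω}

/-- Condition (i). -/
def CondI {p d : ℕ} (s : ℕ) (A : Matrix (Fin d) (Fin d) (ZMod p))
    (g : (Fin d → ZMod p) → ZMod p) : Prop :=
  ∀ (n : Fin d → ZMod p) (h : Fin s → (Fin d → ZMod p)), (n, h) ∈ gowersSet s (zeroSet A) →
    iterDelta s h g n = 0

/-- Condition (ii). -/
def CondII {p d : ℕ} (s : ℕ) (A : Matrix (Fin d) (Fin d) (ZMod p))
    (g : (Fin d → ZMod p) → ZMod p) : Prop :=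
  ∃ g' : MvPolynomial (Fin d) (ZMod p), g'.totalDegree ≤ s - 1 ∧
    ∀ n ∈ zeroSet A, g n = MvPolynomial.eval n g'

/-- The statement of Q1 for given constants `C_s`, `P_d`. -/
def Statement (C P : ℕ → ℕ) : Prop :=
  ∀ d s : ℕ, 1 ≤ d → 1 ≤ s → ∀ p : ℕ, p.Prime → P d ≤ p →
    ∀ A : Matrix (Fin d) (Fin d) (ZMod p), A.IsSymm → C s ≤ A.rank →
      ∀ g : (Fin d → ZMod p) → ZMod p, CondI s A g ↔ CondII s A g

/-! ## Condition (ii) implies condition (i) -/

section Easy

variable {p : ℕ} [Fact p.Prime] {d : ℕ}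

theorem PD_delta {k : ℕ} {f : (Fin d → ZMod p) → ZMod p}
    (hf : f ∈ PD (ZMod p) (Fin d → ZMod p) (k + 1)) (h : Fin d → ZMod p) :
    delta h f ∈ PD (ZMod p) (Fin d → ZMod p) k := by
  refine PD_induction (p := fun f => delta h f ∈ PD (ZMod p) (Fin d → ZMod p) k) ?_ ?_ ?_ ?_ hf
  · intro l c
    clear hf
    induction k with
    | zero =>
      refine PD_congr (Submodule.zero_mem _) fun x => ?_
      simp [delta]
    | succ k ih =>
      have h1 := PD_affmul (ih (fun i => l i.succ) (fun i => c i.succ)) (l 0) (l 0 h + c 0)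
      have h2 := Submodule.smul_mem _ (l 0 h)
        (gen_mem (fun i : Fin k => l i.succ) (fun i => c i.succ))
      refine PD_congr (Submodule.add_mem _ h1 h2) fun x => ?_
      simp only [delta, Fin.prod_univ_succ, Pi.add_apply, Pi.smul_apply, map_add, smul_eq_mul]
      ring
  · refine PD_congr (Submodule.zero_mem _) fun x => ?_
    simp [delta]
  · intro f g hf hg
    refine PD_congr (Submodule.add_mem _ hf hg) fun x => ?_
    simp only [delta, Pi.add_apply]; ring
  · intro a f hf
    refine PD_congr (Submodule.smul_mem _ a hf) fun x => ?_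
    simp only [delta, Pi.smul_apply, smul_eq_mul]; ring

theorem PD_iterDelta (s k : ℕ) (h : Fin s → (Fin d → ZMod p)) {f : (Fin d → ZMod p) → ZMod p}
    (hf : f ∈ PD (ZMod p) (Fin d → ZMod p) (k + s)) :
    iterDelta s h f ∈ PD (ZMod p) (Fin d → ZMod p) k := by
  induction s generalizing k with
  | zero => exact hf
  | succ s ih =>
    refine PD_delta (ih (k + 1) (fun i => h i.castSucc) ?_) _
    rw [show k + 1 + s = k + (s + 1) by ring]
    exact hf

theorem PD_mvPoly {s : ℕ} (hs : 0 < s) (P : MvPolynomial (Fin d) (ZMod p))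
    (hP : P.totalDegree ≤ s - 1) :
    (fun n => MvPolynomial.eval n P) ∈ PD (ZMod p) (Fin d → ZMod p) s := by
  have hmon : ∀ m : Fin d →₀ ℕ, (fun n : Fin d → ZMod p => ∏ i, n i ^ m i) ∈
      PD (ZMod p) (Fin d → ZMod p) ((m.sum fun _ e => e) + 1) := by
    intro m
    have h1 : ∀ T : Finset (Fin d), (fun n : Fin d → ZMod p => ∏ i ∈ T, n i ^ m i) ∈
        PD (ZMod p) (Fin d → ZMod p) ((∑ i ∈ T, m i) + 1) := by
      intro T
      induction T using Finset.induction_on with
      | empty =>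
        refine PD_congr (PD_const 1 one_pos) fun x => ?_
        simp
      | insert a T ha ih =>
        have h3 : (fun n : Fin d → ZMod p => n a ^ m a) ∈
            PD (ZMod p) (Fin d → ZMod p) (m a + 1) := by
          have := PD_poly (LinearMap.proj a : (Fin d → ZMod p) →ₗ[ZMod p] ZMod p) (X ^ m a)
            (s := m a + 1) (by rw [degree_X_pow]; exact_mod_cast Nat.lt_succ_self _)
          refine PD_congr this fun x => ?_
          simp
        have h4 := PD_mul h3 ih
        rw [Finset.sum_insert ha]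
        refine PD_congr (PD_mono (by omega) h4) fun x => ?_
        rw [Finset.prod_insert ha]
    have h5 := h1 Finset.univ
    rw [Finsupp.sum_fintype _ _ (fun _ => rfl)]
    exact h5
  have h2 : (∑ m ∈ P.support, (P.coeff m) • (fun n : Fin d → ZMod p => ∏ i, n i ^ m i)) ∈
      PD (ZMod p) (Fin d → ZMod p) s := by
    refine Submodule.sum_mem _ fun m hm => Submodule.smul_mem _ _ (PD_mono ?_ (hmon m))
    have := MvPolynomial.le_totalDegree hm
    omega
  refine PD_congr h2 fun n => ?_
  rw [MvPolynomial.eval_eq', Finset.sum_apply]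
  rfl

theorem iterDelta_congr (s : ℕ) (Ω : Set (Fin d → ZMod p)) {f f' : (Fin d → ZMod p) → ZMod p}
    (hf : ∀ n ∈ Ω, f n = f' n) (n : Fin d → ZMod p) (h : Fin s → (Fin d → ZMod p))
    (hn : (n, h) ∈ gowersSet s Ω) : iterDelta s h f n = iterDelta s h f' n := by
  induction s generalizing n with
  | zero =>
    refine hf n ?_
    have := hn (fun i => i.elim0)
    simpa using this
  | succ s ih =>
    have h1 : (n, fun i => h i.castSucc) ∈ gowersSet s Ω := by
      intro ε
      have := hn (Fin.snoc ε 0 : Fin (s + 1) → Fin 2)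
      rw [Fin.sum_univ_castSucc] at this
      simpa using this
    have h2 : (n + h (Fin.last s), fun i => h i.castSucc) ∈ gowersSet s Ω := by
      intro ε
      have := hn (Fin.snoc ε 1 : Fin (s + 1) → Fin 2)
      rw [Fin.sum_univ_castSucc] at this
      simp only [Fin.snoc_castSucc, Fin.snoc_last] at this ⊢
      rw [add_assoc, add_comm (h (Fin.last s))]
      simpa using this
    simp only [iterDelta, delta]
    rw [ih _ _ h1, ih _ _ h2]

theorem easy {s : ℕ} (hs : 0 < s) (A : Matrix (Fin d) (Fin d) (ZMod p))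
    (g : (Fin d → ZMod p) → ZMod p) (h : CondII s A g) : CondI s A g := by
  obtain ⟨P, hP, hg⟩ := h
  intro n h hn
  rw [iterDelta_congr s (zeroSet A) hg n h hn]
  refine PD_zero (X := Fin d → ZMod p) (PD_iterDelta s 0 h ?_) n
  rw [zero_add]
  exact PD_mvPoly hs P hP

end Easy

/-! ## Condition (i) implies condition (ii) -/

section Hard

variable {p : ℕ} [Fact p.Prime] {d : ℕ}

theorem iterDelta_const (k : ℕ) (v : Fin d → ZMod p) (g : (Fin d → ZMod p) → ZMod p)
    (n : Fin d → ZMod p) (t : ZMod p) :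
    iterDelta k (fun _ => v) g (n + t • v) = (fwdDiff (1 : ZMod p))^[k] (fun t => g (n + t • v)) t := by
  induction k generalizing t with
  | zero => rfl
  | succ k ih =>
    rw [Function.iterate_succ_apply']
    simp only [iterDelta, delta, fwdDiff]
    rw [← ih, ← ih, add_smul, one_smul, add_assoc]

/-- A function on `F_p` all of whose `s`-fold differences vanish is a polynomial of degree less
than `s`. -/
theorem UP_of_fwdDiff {s : ℕ} (hs : s ≤ p) (φ : ZMod p → ZMod p)
    (h : ∀ t, (fwdDiff (1 : ZMod p))^[s] φ t = 0) : φ ∈ UP (ZMod p) s := by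
  have h1 : ∀ k, s ≤ k → ∀ t, (fwdDiff (1 : ZMod p))^[k] φ t = 0 := by
    intro k hk
    induction hk with
    | refl => exact h
    | step _ ih =>
      intro t
      rw [Function.iterate_succ_apply', fwdDiff, ih, ih, sub_self]
  have h2 : (∑ k ∈ Finset.range s, ((fwdDiff (1 : ZMod p))^[k] φ 0 * ((k.factorial : ZMod p))⁻¹) •
      (fun t : ZMod p => (descPochhammer (ZMod p) k).eval t)) ∈ UP (ZMod p) s := by
    refine Submodule.sum_mem _ fun k hk => Submodule.smul_mem _ _ ?_
    refine mem_UP.2 ⟨descPochhammer (ZMod p) k, ?_, fun t => rfl⟩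
    refine degree_le_natDegree.trans_lt ?_
    rw [descPochhammer_natDegree]
    rw [Finset.mem_range] at hk
    exact_mod_cast hk
  refine UP_congr h2 fun t => ?_
  have h3 := shift_eq_sum_fwdDiff_iter (1 : ZMod p) φ t.val 0
  have h4 : (0 : ZMod p) + t.val • (1 : ZMod p) = t := by simp
  rw [h4] at h3
  rw [h3]
  -- both sums are equal to the sum over `k < p`
  have hp := Fact.out (p := p.Prime)
  have h5 : ∑ k ∈ Finset.range (t.val + 1), t.val.choose k • (fwdDiff (1 : ZMod p))^[k] φ 0 =
      ∑ k ∈ Finset.range s, t.val.choose k • (fwdDiff (1 : ZMod p))^[k] φ 0 := by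
    have h6 : ∀ m, t.val + 1 ≤ m → ∑ k ∈ Finset.range (t.val + 1),
        t.val.choose k • (fwdDiff (1 : ZMod p))^[k] φ 0 =
        ∑ k ∈ Finset.range m, t.val.choose k • (fwdDiff (1 : ZMod p))^[k] φ 0 := by
      intro m hm
      refine Finset.sum_subset (Finset.range_mono hm) fun k _ hk => ?_
      rw [Finset.mem_range, not_lt] at hk
      rw [Nat.choose_eq_zero_of_lt (by omega), zero_smul]
    rw [h6 (t.val + 1 + s) (by omega)]
    refine (Finset.sum_subset (Finset.range_mono (by omega)) fun k _ hk => ?_).symm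
    rw [Finset.mem_range, not_lt] at hk
    rw [h1 k hk, smul_zero]
  rw [h5, Finset.sum_apply]
  refine Finset.sum_congr rfl fun k hk => ?_
  rw [Finset.mem_range] at hk
  have h7 : ((k.factorial : ℕ) : ZMod p) ≠ 0 := by
    rw [Ne, ZMod.natCast_eq_zero_iff]
    intro hd
    have := (hp.dvd_factorial).1 hd
    omega
  have h8 : (descPochhammer (ZMod p) k).eval t = (k.factorial : ZMod p) * (t.val.choose k : ZMod p) := by
    have h9 := descPochhammer_eval_eq_descFactorial (ZMod p) t.val k
    rw [Nat.descFactorial_eq_factorial_mul_choose] at h9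
    rw [ZMod.natCast_zmod_val] at h9
    rw [h9]; push_cast; ring
  rw [Pi.smul_apply, smul_eq_mul, h8, nsmul_eq_mul]
  field_simp

theorem line_of_condI {s : ℕ} (hs : s ≤ p) (A : Matrix (Fin d) (Fin d) (ZMod p))
    (g : (Fin d → ZMod p) → ZMod p) (h : CondI s A g) (n v : Fin d → ZMod p)
    (hv : ∀ t : ZMod p, bil A (n + t • v) (n + t • v) = 0) :
    (fun t : ZMod p => g (n + t • v)) ∈ UP (ZMod p) s := by
  refine UP_of_fwdDiff hs _ fun t => ?_
  rw [← iterDelta_const]
  refine h _ _ fun ε => ?_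
  have h1 : n + t • v + ∑ i : Fin s, (ε i : ℕ) • v = n + (t + ∑ i, ((ε i : ℕ) : ZMod p)) • v := by
    rw [add_smul, Finset.sum_smul, add_assoc]
    congr 2
    refine Finset.sum_congr rfl fun i _ => ?_
    rw [Nat.cast_smul_eq_nsmul]
  show n + t • v + ∑ i : Fin s, (ε i : ℕ) • v ∈ zeroSet A
  rw [h1]
  exact hv _

theorem mvPoly_of_PD {k : ℕ} {f : (Fin d → ZMod p) → ZMod p}
    (hf : f ∈ PD (ZMod p) (Fin d → ZMod p) (k + 1)) :
    ∃ P : MvPolynomial (Fin d) (ZMod p), P.totalDegree ≤ k ∧ ∀ n, f n = MvPolynomial.eval n P := by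
  refine PD_induction (p := fun f => ∃ P : MvPolynomial (Fin d) (ZMod p), P.totalDegree ≤ k ∧
    ∀ n, f n = MvPolynomial.eval n P) ?_ ?_ ?_ ?_ hf
  · intro l c
    set L : Fin k → MvPolynomial (Fin d) (ZMod p) := fun i =>
      (∑ j, MvPolynomial.C (l i (Pi.single j 1)) * MvPolynomial.X j) + MvPolynomial.C (c i) with hL
    have hLd : ∀ i, (L i).totalDegree ≤ 1 := by
      intro i
      refine (MvPolynomial.totalDegree_add _ _).trans (max_le ?_ ?_)
      · refine MvPolynomial.totalDegree_finsetSum_le fun j _ => ?_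
        refine (MvPolynomial.totalDegree_mul _ _).trans ?_
        rw [MvPolynomial.totalDegree_C, MvPolynomial.totalDegree_X]
      · rw [MvPolynomial.totalDegree_C]; omega
    have hLe : ∀ i n, MvPolynomial.eval n (L i) = l i n + c i := by
      intro i n
      rw [hL]
      simp only [map_add, map_sum, map_mul, MvPolynomial.eval_C, MvPolynomial.eval_X]
      congr 1
      conv_rhs => rw [← Finset.univ_sum_single n]
      rw [map_sum]
      refine Finset.sum_congr rfl fun j _ => ?_
      have : (Pi.single j (n j) : Fin d → ZMod p) = n j • Pi.single j 1 := by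
        rw [← Pi.single_smul, smul_eq_mul, mul_one]
      rw [this, map_smul, smul_eq_mul, mul_comm]
    refine ⟨∏ i, L i, ?_, fun n => ?_⟩
    · refine (MvPolynomial.totalDegree_finsetProd _ _).trans ?_
      refine (Finset.sum_le_sum fun i _ => hLd i).trans ?_
      simp
    · rw [map_prod]
      exact Finset.prod_congr rfl fun i _ => (hLe i n).symm
  · exact ⟨0, by simp, fun n => by simp⟩
  · rintro f g ⟨P, hP, hf⟩ ⟨Q, hQ, hg⟩
    exact ⟨P + Q, (MvPolynomial.totalDegree_add _ _).trans (max_le hP hQ), fun n => by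
      rw [map_add, Pi.add_apply, hf, hg]⟩
  · rintro a f ⟨P, hP, hf⟩
    exact ⟨MvPolynomial.C a * P, (MvPolynomial.totalDegree_mul _ _).trans (by
      rw [MvPolynomial.totalDegree_C]; omega), fun n => by
      rw [map_mul, MvPolynomial.eval_C, Pi.smul_apply, smul_eq_mul, hf]⟩

end Hard

/-- **The answer to Q1 is positive**, with `C_s = s + 5` and `P_d = 2 (d + 3)²`. -/
theorem result : Statement (fun s => s + 5) (fun d => 2 * (d + 3) ^ 2) := by
  intro d s _ hs p hp hpd A hA hr g
  have : Fact p.Prime := ⟨hp⟩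
  refine ⟨fun h => ?_, easy (by omega) A g⟩
  simp only at hpd hr
  have hrd : A.rank ≤ d := by
    have := Matrix.rank_le_width A
    exact this
  have hsd : s + 5 ≤ d := hr.trans hrd
  have hp2 : p ≠ 2 := by
    rintro rfl
    nlinarith
  have hodd : p % 2 = 1 := (hp.eq_two_or_odd).resolve_left hp2
  have h2 : (2 : ZMod p) ≠ 0 := by
    have : ((2 : ℕ) : ZMod p) ≠ 0 := by
      rw [Ne, ZMod.natCast_eq_zero_iff]
      intro h
      have := (Nat.prime_dvd_prime_iff_eq hp Nat.prime_two).1 h
      exact hp2 this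
    exact_mod_cast this
  have hcard : 2 * ((d + 2) * (s - 1) + 1) + 2 * s + 5 ≤ p := by
    refine le_trans ?_ hpd
    have h3 : (d + 2) * (s - 1) ≤ (d + 2) * d := Nat.mul_le_mul_left _ (by omega)
    nlinarith
  have hsp : s ≤ p := by omega
  obtain ⟨G, hG, hgG⟩ := general hodd h2 hA (by omega) (by omega : 0 < s) hcard g
    (fun n v hv => line_of_condI hsp A g h n v hv)
  obtain ⟨k, rfl⟩ : ∃ k, s = k + 1 := ⟨s - 1, by omega⟩
  obtain ⟨P, hP, hGP⟩ := mvPoly_of_PD hG
  exact ⟨P, hP, fun n hn => by rw [hgG n hn, hGP]⟩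

end Pool.Agent.Results.MP_5cbcf2_nt.Equivalence
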